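import Mathlib

set_option autoImplicit false

namespace Q116.Lights

/-- Vertices of the complement graph: a central edge, `s` pendant edges attached to its first end,
`r` pendant edges attached to its second end, and `m` isolated edges. -/
abbrev Vtx (s r m : ℕ) : Type := Bool ⊕ (Fin s × Bool) ⊕ (Fin r × Bool) ⊕ (Fin m × Bool)

variable {s r m : ℕ}

/-- Adjacency of the complement graph. -/
def adj : Vtx s r m → Vtx s r m → Prop
  | Sum.inl a, Sum.inl b => a ≠ b
  | Sum.inl a, Sum.inr (Sum.inl p) => a = false ∧ p.2 = false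
  | Sum.inr (Sum.inl p), Sum.inl a => a = false ∧ p.2 = false
  | Sum.inl a, Sum.inr (Sum.inr (Sum.inl p)) => a = true ∧ p.2 = false
  | Sum.inr (Sum.inr (Sum.inl p)), Sum.inl a => a = true ∧ p.2 = false
  | Sum.inr (Sum.inl p), Sum.inr (Sum.inl q) => p.1 = q.1 ∧ p.2 ≠ q.2
  | Sum.inr (Sum.inr (Sum.inl p)), Sum.inr (Sum.inr (Sum.inl q)) => p.1 = q.1 ∧ p.2 ≠ q.2
  | Sum.inr (Sum.inr (Sum.inr p)), Sum.inr (Sum.inr (Sum.inr q)) => p.1 = q.1 ∧ p.2 ≠ q.2
  | _, _ => False

theorem adj_symm (x y : Vtx s r m) (h : adj x y) : adj y x := by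
  rcases x with (a | p | p | p) <;> rcases y with (b | q | q | q) <;> simp only [adj] at h ⊢
  · exact h.symm
  · exact h
  · exact h
  · exact h
  · exact ⟨h.1.symm, h.2.symm⟩
  · exact h
  · exact ⟨h.1.symm, h.2.symm⟩
  · exact ⟨h.1.symm, h.2.symm⟩

theorem adj_irrefl (x : Vtx s r m) : ¬ adj x x := by
  rcases x with (a | p | p | p) <;> simp [adj]

/-- The complement graph. -/
def H (s r m : ℕ) : SimpleGraph (Vtx s r m) where
  Adj := adj
  symm := ⟨fun x y h => adj_symm x y h⟩
  loopless := ⟨fun x h => adj_irrefl x h⟩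

open scoped Classical

variable {R : Type} [CommRing R] (x : Vtx s r m → R)

theorem sum_c0 : ∑ u, (if (H s r m).Adj u (Sum.inl false) then x u else 0) =
    x (Sum.inl true) + ∑ i, x (Sum.inr (Sum.inl (i, false))) := by
  simp [H, adj, Fintype.sum_sum_type, Fintype.sum_prod_type]

theorem sum_c1 : ∑ u, (if (H s r m).Adj u (Sum.inl true) then x u else 0) =
    x (Sum.inl false) + ∑ i, x (Sum.inr (Sum.inr (Sum.inl (i, false)))) := by
  simp [H, adj, Fintype.sum_sum_type, Fintype.sum_prod_type]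

theorem sum_l0 (i : Fin s) :
    ∑ u, (if (H s r m).Adj u (Sum.inr (Sum.inl (i, false))) then x u else 0) =
    x (Sum.inl false) + x (Sum.inr (Sum.inl (i, true))) := by
  simp [H, adj, Fintype.sum_sum_type, Fintype.sum_prod_type, ite_and]

theorem sum_l1 (i : Fin s) :
    ∑ u, (if (H s r m).Adj u (Sum.inr (Sum.inl (i, true))) then x u else 0) =
    x (Sum.inr (Sum.inl (i, false))) := by
  simp [H, adj, Fintype.sum_sum_type, Fintype.sum_prod_type, ite_and]

theorem sum_r0 (i : Fin r) :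
    ∑ u, (if (H s r m).Adj u (Sum.inr (Sum.inr (Sum.inl (i, false)))) then x u else 0) =
    x (Sum.inl true) + x (Sum.inr (Sum.inr (Sum.inl (i, true)))) := by
  simp [H, adj, Fintype.sum_sum_type, Fintype.sum_prod_type, ite_and]

theorem sum_r1 (i : Fin r) :
    ∑ u, (if (H s r m).Adj u (Sum.inr (Sum.inr (Sum.inl (i, true)))) then x u else 0) =
    x (Sum.inr (Sum.inr (Sum.inl (i, false)))) := by
  simp [H, adj, Fintype.sum_sum_type, Fintype.sum_prod_type, ite_and]

theorem sum_m (i : Fin m) (b : Bool) :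
    ∑ u, (if (H s r m).Adj u (Sum.inr (Sum.inr (Sum.inr (i, b)))) then x u else 0) =
    x (Sum.inr (Sum.inr (Sum.inr (i, !b)))) := by
  cases b <;> simp [H, adj, Fintype.sum_sum_type, Fintype.sum_prod_type, ite_and]

end Q116.Lights
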