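import Pool.Agent.Q116.Lights.Solve

set_option autoImplicit false

namespace Q116.Lights

variable {s r m : ℕ}

open scoped Classical

theorem sum_deg : ∑ v, (H s r m).degree v = 2 * (1 + s + r + m) + 2 * (s + r) := by
  have h : ∀ v, ((H s r m).degree v : ℤ) = ∑ u, (if (H s r m).Adj u v then (1 : ℤ) else 0) := by
    intro v
    rw [← SimpleGraph.card_neighborFinset_eq_degree, SimpleGraph.neighborFinset_eq_filter,
      Finset.card_filter]
    push_cast
    refine Finset.sum_congr rfl fun u _ => ?_
    simp only [SimpleGraph.adj_comm]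
  have h2 : (∑ v, ((H s r m).degree v : ℤ)) = 2 * (1 + s + r + m) + 2 * (s + r) := by
    simp_rw [h]
    rw [Fintype.sum_sum_type, Fintype.sum_sum_type, Fintype.sum_sum_type]
    simp only [Fintype.sum_prod_type, Fintype.sum_bool]
    simp only [sum_c0 (fun _ => (1 : ℤ)), sum_c1 (fun _ => (1 : ℤ)), sum_l0 (fun _ => (1 : ℤ)),
      sum_l1 (fun _ => (1 : ℤ)), sum_r0 (fun _ => (1 : ℤ)), sum_r1 (fun _ => (1 : ℤ)),
      sum_m (fun _ => (1 : ℤ))]
    simp
    ring
  exact_mod_cast h2

theorem card_edges_H : (H s r m).edgeFinset.card = 1 + s + r + m + (s + r) := by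
  have h := (H s r m).sum_degrees_eq_twice_card_edges
  rw [sum_deg] at h
  omega

theorem card_vtx : Fintype.card (Vtx s r m) = 2 + 2 * s + 2 * r + 2 * m := by
  simp [Vtx]
  ring

theorem compl_edges {V : Type} [Fintype V] (G : SimpleGraph V) :
    Gᶜ.edgeSet.ncard + G.edgeFinset.card = (Fintype.card V).choose 2 := by
  have h1 := G.sum_degrees_eq_twice_card_edges
  have h2 := Gᶜ.sum_degrees_eq_twice_card_edges
  have h3 : ∀ v, Gᶜ.degree v + G.degree v = Fintype.card V - 1 := by
    intro v
    have h4 := G.degree_compl (v := v)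
    have h5 := G.degree_lt_card_verts v
    have h6 : Gᶜ.degree v = Fintype.card V - 1 - G.degree v := by
      convert h4
    omega
  have h4 : ∑ v, (Gᶜ.degree v + G.degree v) = Fintype.card V * (Fintype.card V - 1) := by
    rw [Finset.sum_congr rfl (fun v _ => h3 v)]
    simp
  rw [Finset.sum_add_distrib, h1, h2] at h4
  have h5 : Gᶜ.edgeSet.ncard = Gᶜ.edgeFinset.card := by
    rw [← SimpleGraph.coe_edgeFinset, Set.ncard_coe_finset]
  rw [h5, Nat.choose_two_right]
  omega

theorem card_edges_compl : (H s r m)ᶜ.edgeSet.ncard + (1 + s + r + m + (s + r)) =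
    (2 + 2 * s + 2 * r + 2 * m).choose 2 := by
  have h := compl_edges (H s r m)
  rw [card_edges_H, card_vtx] at h
  exact h

end Q116.Lights
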