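import Pool.Agent.Q116.Lights.Base

set_option autoImplicit false

namespace Q116.Lights

variable {s r m : ℕ}

open scoped Classical

variable {R : Type} [CommRing R]

/-- The solution of the adjacency system of `H` with right-hand side `c`. -/
def sol (c : Vtx s r m → R) : Vtx s r m → R
  | Sum.inl false => c (Sum.inl true) - ∑ j, c (Sum.inr (Sum.inr (Sum.inl (j, true))))
  | Sum.inl true => c (Sum.inl false) - ∑ i, c (Sum.inr (Sum.inl (i, true)))
  | Sum.inr (Sum.inl (i, false)) => c (Sum.inr (Sum.inl (i, true)))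
  | Sum.inr (Sum.inl (i, true)) => c (Sum.inr (Sum.inl (i, false))) -
      (c (Sum.inl true) - ∑ j, c (Sum.inr (Sum.inr (Sum.inl (j, true)))))
  | Sum.inr (Sum.inr (Sum.inl (j, false))) => c (Sum.inr (Sum.inr (Sum.inl (j, true))))
  | Sum.inr (Sum.inr (Sum.inl (j, true))) => c (Sum.inr (Sum.inr (Sum.inl (j, false)))) -
      (c (Sum.inl false) - ∑ i, c (Sum.inr (Sum.inl (i, true))))
  | Sum.inr (Sum.inr (Sum.inr (i, b))) => c (Sum.inr (Sum.inr (Sum.inr (i, !b))))

theorem sol_spec (c : Vtx s r m → R) (v : Vtx s r m) :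
    ∑ u, (if (H s r m).Adj u v then sol c u else 0) = c v := by
  rcases v with (a | ⟨i, b⟩ | ⟨i, b⟩ | ⟨i, b⟩)
  · cases a
    · rw [sum_c0]; simp [sol]
    · rw [sum_c1]; simp [sol]
  · cases b
    · rw [sum_l0]; simp [sol]
    · rw [sum_l1]; simp [sol]
  · cases b
    · rw [sum_r0]; simp [sol]
    · rw [sum_r1]; simp [sol]
  · rw [sum_m]; simp [sol]

theorem sum_sol_one : ∑ u, sol (fun _ : Vtx s r m => (1 : R)) u = 2 + 2 * (r : R) * s + 2 * m := by
  simp [Fintype.sum_sum_type, Fintype.sum_prod_type, sol]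
  ring

/-- Solvability of the closed-neighbourhood system of the complement of `H`. -/
theorem solvable (lab : Vtx s r m → R) (D : R) (hD : D * (1 + 2 * (r : R) * s + 2 * m) = 1) :
    ∃ x : Vtx s r m → R, ∀ v,
      lab v + ∑ u, (if u = v ∨ (H s r m)ᶜ.Adj u v then x u else 0) = 0 := by
  set Z := ∑ u, sol lab u with hZ
  set S : R := -(D * Z) with hS
  refine ⟨fun v => S * sol (fun _ => (1 : R)) v + sol lab v, fun v => ?_⟩
  have hsum : ∑ u, (S * sol (fun _ : Vtx s r m => (1 : R)) u + sol lab u) = S := by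
    rw [Finset.sum_add_distrib, ← Finset.mul_sum, sum_sol_one, ← hZ]
    have : S * (1 + 2 * (r : R) * s + 2 * m) = -Z := by
      rw [hS]
      linear_combination (-Z) * hD
    linear_combination this
  have hsplit : ∀ u, (if u = v ∨ (H s r m)ᶜ.Adj u v then
        (S * sol (fun _ => (1 : R)) u + sol lab u) else 0) =
      (S * sol (fun _ => (1 : R)) u + sol lab u) -
      (S * (if (H s r m).Adj u v then sol (fun _ => (1 : R)) u else 0) +
        (if (H s r m).Adj u v then sol lab u else 0)) := by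
    intro u
    by_cases h : (H s r m).Adj u v
    · have h1 : ¬ (u = v ∨ (H s r m)ᶜ.Adj u v) := by
        rintro (h2 | h2)
        · exact h.ne h2
        · rw [SimpleGraph.compl_adj] at h2
          exact h2.2 h
      rw [if_neg h1, if_pos h, if_pos h]
      ring
    · have h1 : u = v ∨ (H s r m)ᶜ.Adj u v := by
        by_cases h2 : u = v
        · exact Or.inl h2
        · exact Or.inr ((SimpleGraph.compl_adj _ _ _).2 ⟨h2, h⟩)
      rw [if_pos h1, if_neg h, if_neg h]
      ring
  simp_rw [hsplit]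
  rw [Finset.sum_sub_distrib, hsum, Finset.sum_add_distrib, ← Finset.mul_sum, sol_spec, sol_spec]
  ring

end Q116.Lights
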